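import Mathlib

set_option autoImplicit false
open MeasureTheory ProbabilityTheory Matrix
open scoped ENNReal

namespace Pool.Agent.W813.SV

/-- law of a matrix with iid standard Gaussian entries (first index = row) -/
noncomputable abbrev gm (n : ℕ) : Measure (Fin n → Fin n → ℝ) :=
  Measure.pi (fun _ : Fin n => Measure.pi (fun _ : Fin n => gaussianReal 0 1))

/-- Gram matrix of the rows of M + G -/
noncomputable def gram {n : ℕ} (M : Matrix (Fin n) (Fin n) ℝ) (G : Fin n → Fin n → ℝ) :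
    Matrix (Fin n) (Fin n) ℝ := (M + Matrix.of G) * (M + Matrix.of G)ᵀ

/-- Part 1 (helper813). -/
def Part1 : Prop := ∀ (n : ℕ) (M : Matrix (Fin n) (Fin n) ℝ) (δ : ℝ), 0 < δ →
  ENNReal.ofReal (Real.exp (-(n * δ) / 2)) *
    ∫⁻ G, ENNReal.ofReal (Real.sqrt ((gram M G).det /
      (gram M G + δ • (1 : Matrix (Fin n) (Fin n) ℝ)).det)) ∂(gm n)
    ≤ gm n {G | (gram M G - δ • (1 : Matrix (Fin n) (Fin n) ℝ)).PosDef}

/-- Part 2 (helper168). -/
def Part2 : Prop := ∀ (n : ℕ) (M : Matrix (Fin n) (Fin n) ℝ) (δ : ℝ), 0 < δ →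
  ENNReal.ofReal (Real.exp (-Real.sqrt (n * δ))) ≤
    ∫⁻ G, ENNReal.ofReal (Real.sqrt ((gram M G).det /
      (gram M G + δ • (1 : Matrix (Fin n) (Fin n) ℝ)).det)) ∂(gm n)

end Pool.Agent.W813.SV
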