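import Mathlib

/-! One-dimensional Gaussian inequalities for the smallest singular value of a shifted
Gaussian matrix. -/

set_option autoImplicit false
open MeasureTheory ProbabilityTheory Set
open scoped ENNReal NNReal

namespace Pool.Agent.W813.SV

/-- the ratio of the symmetrised density of `N(m,1)` to that of `N(0,1)` -/
noncomputable def ker (m t : ℝ) : ℝ := Real.exp (-(m ^ 2) / 2) * Real.cosh (m * t)

lemma ker_pos (m t : ℝ) : 0 < ker m t := mul_pos (Real.exp_pos _) (Real.cosh_pos _)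

lemma ker_even (m t : ℝ) : ker m (-t) = ker m t := by
  unfold ker; rw [mul_neg, Real.cosh_neg]

lemma ker_mono (m : ℝ) {s t : ℝ} (hs : |s| ≤ |t|) : ker m s ≤ ker m t := by
  unfold ker
  apply mul_le_mul_of_nonneg_left _ (Real.exp_pos _).le
  rw [Real.cosh_le_cosh, abs_mul, abs_mul]
  exact mul_le_mul_of_nonneg_left hs (abs_nonneg m)

lemma continuous_ker (m : ℝ) : Continuous (ker m) := by
  unfold ker; fun_prop

/-- Integral against `N(m,1)` as an integral against `N(0,1)`. -/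
lemma lint_shift (f : ℝ → ℝ≥0∞) (hf : Measurable f) (m : ℝ) :
    ∫⁻ t, f t ∂(gaussianReal m 1) =
      ∫⁻ t, f t * ENNReal.ofReal (Real.exp (m * t - m ^ 2 / 2)) ∂(gaussianReal 0 1) := by
  rw [gaussianReal_of_var_ne_zero _ one_ne_zero, gaussianReal_of_var_ne_zero _ one_ne_zero,
    lintegral_withDensity_eq_lintegral_mul _ (measurable_gaussianPDF _ _) hf,
    lintegral_withDensity_eq_lintegral_mul _ (measurable_gaussianPDF _ _) (by fun_prop)]
  apply lintegral_congr
  intro t
  simp only [Pi.mul_apply, gaussianPDF, gaussianPDFReal]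
  have h1 : Real.exp (-(t - m) ^ 2 / (2 * ((1 : ℝ≥0) : ℝ))) =
      Real.exp (-(t - 0) ^ 2 / (2 * ((1 : ℝ≥0) : ℝ))) * Real.exp (m * t - m ^ 2 / 2) := by
    rw [← Real.exp_add]; congr 1; push_cast; ring
  rw [h1, ← mul_assoc, ENNReal.ofReal_mul (by positivity)]
  ring

/-- Even functions: integral against `N(m,1)` equals the integral of `f * ker m` against
`N(0,1)`. -/
lemma lint_even (f : ℝ → ℝ≥0∞) (hf : Measurable f) (hev : ∀ t, f (-t) = f t) (m : ℝ) :
    ∫⁻ t, f t ∂(gaussianReal m 1) =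
      ∫⁻ t, f t * ENNReal.ofReal (ker m t) ∂(gaussianReal 0 1) := by
  have h1 := lint_shift f hf m
  have h2 : ∫⁻ t, f t ∂(gaussianReal m 1) =
      ∫⁻ t, f t * ENNReal.ofReal (Real.exp (-(m * t) - m ^ 2 / 2)) ∂(gaussianReal 0 1) := by
    rw [h1]
    have h3 : gaussianReal 0 1 = (gaussianReal 0 1).map (fun t : ℝ => -t) := by
      rw [gaussianReal_map_neg, neg_zero]
    conv_lhs => rw [h3]
    rw [lintegral_map (by fun_prop) (by fun_prop)]
    apply lintegral_congr
    intro t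
    simp only [hev, mul_neg]
  have h4 : 2 * ∫⁻ t, f t ∂(gaussianReal m 1) =
      2 * ∫⁻ t, f t * ENNReal.ofReal (ker m t) ∂(gaussianReal 0 1) := by
    rw [two_mul]
    nth_rewrite 1 [h1]
    rw [h2, ← lintegral_add_left (by fun_prop), ← lintegral_const_mul _ (by
      have := continuous_ker m
      fun_prop)]
    apply lintegral_congr
    intro t
    rw [← mul_add, ← ENNReal.ofReal_add (Real.exp_pos _).le (Real.exp_pos _).le]
    have h5 : Real.exp (m * t - m ^ 2 / 2) + Real.exp (-(m * t) - m ^ 2 / 2) =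
        2 * ker m t := by
      unfold ker
      rw [Real.cosh_eq]
      have e1 : Real.exp (m * t - m ^ 2 / 2) = Real.exp (-(m^2)/2) * Real.exp (m * t) := by
        rw [← Real.exp_add]; congr 1; ring
      have e2 : Real.exp (-(m * t) - m ^ 2 / 2) = Real.exp (-(m^2)/2) * Real.exp (-(m * t)) := by
        rw [← Real.exp_add]; congr 1; ring
      rw [e1, e2]; ring
    rw [h5, ENNReal.ofReal_mul (by norm_num)]
    simp only [ENNReal.ofReal_ofNat]
    ring
  exact (ENNReal.mul_right_inj (by norm_num) (by norm_num)).1 h4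

/-- Lebesgue integral of an even function. -/
lemma lint_half (g : ℝ → ℝ≥0∞) (hev : ∀ t, g (-t) = g t) :
    ∫⁻ t, g t = 2 * ∫⁻ t in Ioi (0 : ℝ), g t := by
  have h1 : ∫⁻ t, g t = (∫⁻ t in Iic (0 : ℝ), g t) + ∫⁻ t in Ioi (0 : ℝ), g t := by
    have := lintegral_add_compl (μ := (volume : Measure ℝ)) g (measurableSet_Iic (a := (0 : ℝ)))
    rw [compl_Iic] at this
    exact this.symm
  have h2 : ∫⁻ t in Iic (0 : ℝ), g t = ∫⁻ t in Ioi (0 : ℝ), g t := by
    rw [setLIntegral_congr (Iio_ae_eq_Iic (μ := volume) (a := (0 : ℝ))).symm]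
    have h3 : (fun t : ℝ => -t) '' (Ioi (0 : ℝ)) = Iio 0 := by
      ext x; simp
    rw [← h3, lintegral_image_eq_lintegral_abs_deriv_mul measurableSet_Ioi
      (f' := fun _ => -1) (fun x _ => (hasDerivAt_neg x).hasDerivWithinAt)
      (neg_injective.injOn)]
    simp [hev]
  rw [h1, h2, two_mul]

/-- `N(0,1)` integral of an even function as a half line Lebesgue integral. -/
lemma lint_gauss_half (f : ℝ → ℝ≥0∞) (hf : Measurable f) (hev : ∀ t, f (-t) = f t) :
    ∫⁻ t, f t ∂(gaussianReal 0 1) =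
      2 * ∫⁻ t in Ioi (0 : ℝ), ENNReal.ofReal (gaussianPDFReal 0 1 t) * f t := by
  rw [gaussianReal_of_var_ne_zero _ one_ne_zero,
    lintegral_withDensity_eq_lintegral_mul _ (measurable_gaussianPDF _ _) hf, lint_half]
  · rfl
  · intro t
    simp only [Pi.mul_apply, hev, gaussianPDF, gaussianPDFReal, sub_zero, neg_sq]

/-- The shift inequality: `E h(X^2) ≥ e^{-δ/2} E [h(X^2+δ) |X| / sqrt(X^2+δ)]`, `X ~ N(m,1)`. -/
theorem shift_ineq (h : ℝ → ℝ≥0∞) (hh : Measurable h) (m δ : ℝ) (hδ : 0 < δ) :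
    ENNReal.ofReal (Real.exp (-δ / 2)) *
      ∫⁻ t, h (t ^ 2 + δ) * ENNReal.ofReal (|t| / Real.sqrt (t ^ 2 + δ)) ∂(gaussianReal m 1)
      ≤ ∫⁻ t, h (t ^ 2) ∂(gaussianReal m 1) := by
  have hk := continuous_ker m
  rw [lint_even _ (by fun_prop) (by intro t; simp) m,
    lint_even _ (by fun_prop) (by intro t; simp) m,
    lint_gauss_half _ (by fun_prop) (by intro t; simp [ker_even]),
    lint_gauss_half _ (by fun_prop) (by intro t; simp [ker_even])]
  have himg : (fun t : ℝ => Real.sqrt (t ^ 2 + δ)) '' (Ioi 0) ⊆ Ioi 0 := by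
    rintro _ ⟨t, ht, rfl⟩
    exact Real.sqrt_pos.2 (by positivity)
  have hder : ∀ t ∈ Ioi (0 : ℝ), HasDerivWithinAt (fun t : ℝ => Real.sqrt (t ^ 2 + δ))
      (t / Real.sqrt (t ^ 2 + δ)) (Ioi 0) t := by
    intro t ht
    have h1 : HasDerivAt (fun t : ℝ => t ^ 2 + δ) (2 * t) t := by
      simpa using ((hasDerivAt_pow 2 t).add_const δ)
    have h2 := h1.sqrt (by positivity)
    refine (h2.hasDerivWithinAt).congr_deriv ?_
    field_simp
  have hinj : InjOn (fun t : ℝ => Real.sqrt (t ^ 2 + δ)) (Ioi 0) := by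
    intro s hs t ht hst
    have h1 : s ^ 2 + δ = t ^ 2 + δ := by
      have := congrArg (fun y => y ^ 2) hst
      simpa [Real.sq_sqrt (show (0:ℝ) ≤ s ^ 2 + δ by positivity),
        Real.sq_sqrt (show (0:ℝ) ≤ t ^ 2 + δ by positivity)] using this
    have h2 : s ^ 2 = t ^ 2 := by linarith
    have hs' : (0:ℝ) < s := hs
    have ht' : (0:ℝ) < t := ht
    nlinarith [sq_nonneg (s - t), mul_pos hs' ht']
  have key : ENNReal.ofReal (Real.exp (-δ / 2)) *
      ∫⁻ t in Ioi (0 : ℝ), ENNReal.ofReal (gaussianPDFReal 0 1 t) *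
        (h (t ^ 2 + δ) * ENNReal.ofReal (|t| / Real.sqrt (t ^ 2 + δ)) *
          ENNReal.ofReal (ker m t)) ≤
      ∫⁻ t in Ioi (0 : ℝ), ENNReal.ofReal (gaussianPDFReal 0 1 t) *
        (h (t ^ 2) * ENNReal.ofReal (ker m t)) := by
    calc _ = ∫⁻ t in Ioi (0 : ℝ), ENNReal.ofReal (Real.exp (-δ / 2)) *
          (ENNReal.ofReal (gaussianPDFReal 0 1 t) *
        (h (t ^ 2 + δ) * ENNReal.ofReal (|t| / Real.sqrt (t ^ 2 + δ)) *
          ENNReal.ofReal (ker m t))) := by
          rw [lintegral_const_mul _ (by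
            have := measurable_gaussianPDFReal 0 1
            fun_prop)]
      _ ≤ ∫⁻ t in Ioi (0 : ℝ), ENNReal.ofReal (|t / Real.sqrt (t ^ 2 + δ)|) *
          (fun s : ℝ => ENNReal.ofReal (gaussianPDFReal 0 1 s) *
            (h (s ^ 2) * ENNReal.ofReal (ker m s))) (Real.sqrt (t ^ 2 + δ)) := by
          apply setLIntegral_mono' measurableSet_Ioi
          intro t ht
          have ht' : (0:ℝ) < t := ht
          have hs : (0:ℝ) < Real.sqrt (t ^ 2 + δ) := Real.sqrt_pos.2 (by positivity)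
          have e1 : Real.sqrt (t ^ 2 + δ) ^ 2 = t ^ 2 + δ := Real.sq_sqrt (by positivity)
          have e2 : gaussianPDFReal 0 1 (Real.sqrt (t ^ 2 + δ)) =
              Real.exp (-δ / 2) * gaussianPDFReal 0 1 t := by
            simp only [gaussianPDFReal, sub_zero, e1]
            have : Real.exp (-(t ^ 2 + δ) / (2 * ((1 : ℝ≥0) : ℝ))) =
              Real.exp (-δ / 2) * Real.exp (-(t ^ 2) / (2 * ((1 : ℝ≥0) : ℝ))) := by
              rw [← Real.exp_add]; congr 1; push_cast; ring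
            rw [this]; ring
          have e3 : ker m t ≤ ker m (Real.sqrt (t ^ 2 + δ)) := by
            apply ker_mono
            rw [abs_of_pos ht', abs_of_pos hs]
            apply Real.le_sqrt_of_sq_le
            linarith
          have e4 : |t / Real.sqrt (t ^ 2 + δ)| = |t| / Real.sqrt (t ^ 2 + δ) := by
            rw [abs_div, abs_of_pos hs]
          simp only [e1, e2, e4]
          rw [ENNReal.ofReal_mul (Real.exp_pos _).le]
          calc _ = ENNReal.ofReal (|t| / Real.sqrt (t ^ 2 + δ)) *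
                (ENNReal.ofReal (Real.exp (-δ / 2)) * ENNReal.ofReal (gaussianPDFReal 0 1 t) *
                  (h (t ^ 2 + δ) * ENNReal.ofReal (ker m t))) := by ring
            _ ≤ _ := by gcongr
      _ = ∫⁻ s in (fun t : ℝ => Real.sqrt (t ^ 2 + δ)) '' (Ioi 0),
          ENNReal.ofReal (gaussianPDFReal 0 1 s) * (h (s ^ 2) * ENNReal.ofReal (ker m s)) := by
          rw [lintegral_image_eq_lintegral_abs_deriv_mul measurableSet_Ioi hder hinj
            (fun s : ℝ => ENNReal.ofReal (gaussianPDFReal 0 1 s) *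
            (h (s ^ 2) * ENNReal.ofReal (ker m s)))]
      _ ≤ _ := lintegral_mono_set himg
  calc _ = 2 * (ENNReal.ofReal (Real.exp (-δ / 2)) *
      ∫⁻ t in Ioi (0 : ℝ), ENNReal.ofReal (gaussianPDFReal 0 1 t) *
        (h (t ^ 2 + δ) * ENNReal.ofReal (|t| / Real.sqrt (t ^ 2 + δ)) *
          ENNReal.ofReal (ker m t))) := by ring
    _ ≤ _ := by gcongr

end Pool.Agent.W813.SV
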