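import Mathlib

/-! Resampling one direction of a standard Gaussian vector. -/

set_option autoImplicit false
open MeasureTheory ProbabilityTheory Set
open scoped ENNReal NNReal

namespace Pool.Agent.W813.SV

/-- standard Gaussian vector in coordinates -/
noncomputable abbrev gv (ι : Type*) [Fintype ι] : Measure (ι → ℝ) :=
  Measure.pi (fun _ : ι => gaussianReal 0 1)

variable {ι : Type*} [Fintype ι]

lemma integral_exp_real (s : ℝ) :
    ∫ x : ℝ, Complex.exp (((s * x : ℝ) : ℂ) * Complex.I) ∂(gaussianReal 0 1) =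
      Complex.exp (-((s * s : ℝ) : ℂ) / 2) := by
  have h := charFun_gaussianReal (μ := 0) (v := 1) s
  rw [charFun_apply_real] at h
  have e : ∀ x : ℝ, (((s * x : ℝ) : ℂ) * Complex.I) = ((s : ℂ) * (x : ℂ)) * Complex.I := by
    intro x; push_cast; ring
  simp_rw [e]
  rw [h]
  congr 1
  push_cast
  ring

lemma integral_exp_dot (w : ι → ℝ) :
    ∫ x, Complex.exp (((w ⬝ᵥ x : ℝ) : ℂ) * Complex.I) ∂(gv ι) =
      Complex.exp (-((w ⬝ᵥ w : ℝ) : ℂ) / 2) := by
  have e : ∀ x : ι → ℝ, Complex.exp (((w ⬝ᵥ x : ℝ) : ℂ) * Complex.I) =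
      ∏ i, Complex.exp (((w i * x i : ℝ) : ℂ) * Complex.I) := by
    intro x
    rw [← Complex.exp_sum]
    congr 1
    simp only [dotProduct, Complex.ofReal_sum, Finset.sum_mul]
  simp_rw [e]
  rw [integral_fintype_prod_eq_prod
    (f := fun i (y : ℝ) => Complex.exp (((w i * y : ℝ) : ℂ) * Complex.I))]
  simp_rw [integral_exp_real]
  rw [← Complex.exp_sum]
  congr 1
  simp only [dotProduct, Complex.ofReal_sum, ← Finset.sum_neg_distrib, Finset.sum_div]

/-- Every continuous linear functional on `ι → ℝ` is a dot product. -/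
lemma exists_dot [DecidableEq ι] (L : StrongDual ℝ (ι → ℝ)) : ∃ w : ι → ℝ, ∀ x, L x = w ⬝ᵥ x := by
  refine ⟨fun i => L (Pi.single i 1), fun x => ?_⟩
  conv_lhs => rw [pi_eq_sum_univ' x]
  simp only [map_sum, map_smul, dotProduct, smul_eq_mul]
  apply Finset.sum_congr rfl
  intro i _
  rw [mul_comm]

/-- Two finite measures on `ι → ℝ` with the same characteristic function agree. -/
lemma ext_dot {μ ν : Measure (ι → ℝ)} [IsFiniteMeasure μ] [IsFiniteMeasure ν]
    (h : ∀ w : ι → ℝ, ∫ x, Complex.exp (((w ⬝ᵥ x : ℝ) : ℂ) * Complex.I) ∂μ =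
      ∫ x, Complex.exp (((w ⬝ᵥ x : ℝ) : ℂ) * Complex.I) ∂ν) : μ = ν := by
  classical
  apply Measure.ext_of_charFunDual
  ext L
  obtain ⟨w, hw⟩ := exists_dot L
  rw [charFunDual_apply, charFunDual_apply]
  simp_rw [hw]
  exact h w

/-- **Resampling.** Replacing the component of a standard Gaussian vector in a unit direction by an
independent `N(0,1)` variable does not change the law. -/
theorem resample (u : ι → ℝ) (hu : u ⬝ᵥ u = 1) :
    ((gv ι).prod (gaussianReal 0 1)).map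
      (fun p : (ι → ℝ) × ℝ => p.1 - (u ⬝ᵥ p.1) • u + p.2 • u) = gv ι := by
  have hmeas : Measurable (fun p : (ι → ℝ) × ℝ => p.1 - (u ⬝ᵥ p.1) • u + p.2 • u) := by
    apply Continuous.measurable
    unfold dotProduct
    fun_prop
  have : IsProbabilityMeasure (((gv ι).prod (gaussianReal 0 1)).map
      (fun p : (ι → ℝ) × ℝ => p.1 - (u ⬝ᵥ p.1) • u + p.2 • u)) :=
    Measure.isProbabilityMeasure_map hmeas.aemeasurable
  apply ext_dot
  intro w
  rw [integral_map hmeas.aemeasurable (by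
    apply Continuous.aestronglyMeasurable
    unfold dotProduct
    fun_prop), integral_exp_dot]
  have e : ∀ p : (ι → ℝ) × ℝ,
      Complex.exp (((w ⬝ᵥ (p.1 - (u ⬝ᵥ p.1) • u + p.2 • u) : ℝ) : ℂ) * Complex.I) =
      Complex.exp ((((w - (w ⬝ᵥ u) • u) ⬝ᵥ p.1 : ℝ) : ℂ) * Complex.I) *
        Complex.exp ((((w ⬝ᵥ u) * p.2 : ℝ) : ℂ) * Complex.I) := by
    intro p
    rw [← Complex.exp_add]
    congr 1
    have : w ⬝ᵥ (p.1 - (u ⬝ᵥ p.1) • u + p.2 • u) =
        (w - (w ⬝ᵥ u) • u) ⬝ᵥ p.1 + (w ⬝ᵥ u) * p.2 := by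
      simp only [dotProduct_add, dotProduct_sub, sub_dotProduct, dotProduct_smul,
        smul_dotProduct, smul_eq_mul]
      ring
    rw [this]
    push_cast
    ring
  simp_rw [e]
  rw [integral_prod_mul
    (fun x : ι → ℝ => Complex.exp ((((w - (w ⬝ᵥ u) • u) ⬝ᵥ x : ℝ) : ℂ) * Complex.I))
    (fun y : ℝ => Complex.exp ((((w ⬝ᵥ u) * y : ℝ) : ℂ) * Complex.I)),
    integral_exp_dot, integral_exp_real, ← Complex.exp_add]
  congr 1
  have h2 : (w - (w ⬝ᵥ u) • u) ⬝ᵥ (w - (w ⬝ᵥ u) • u) + (w ⬝ᵥ u) * (w ⬝ᵥ u) = w ⬝ᵥ w := by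
    simp only [dotProduct_sub, sub_dotProduct, dotProduct_smul, smul_dotProduct, smul_eq_mul, hu,
      dotProduct_comm u w]
    ring
  rw [← h2]
  push_cast
  ring

/-- Resampling, integral form. -/
theorem lint_resample (u : ι → ℝ) (hu : u ⬝ᵥ u = 1) (f : (ι → ℝ) → ℝ≥0∞) (hf : Measurable f) :
    ∫⁻ x, f x ∂(gv ι) =
      ∫⁻ x, ∫⁻ h, f (x - (u ⬝ᵥ x) • u + h • u) ∂(gaussianReal 0 1) ∂(gv ι) := by
  have hmeas : Measurable (fun p : (ι → ℝ) × ℝ => p.1 - (u ⬝ᵥ p.1) • u + p.2 • u) := by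
    apply Continuous.measurable
    unfold dotProduct
    fun_prop
  conv_lhs => rw [← resample u hu]
  rw [lintegral_map hf hmeas]
  exact lintegral_prod (fun p : (ι → ℝ) × ℝ => f (p.1 - (u ⬝ᵥ p.1) • u + p.2 • u))
    (hf.comp hmeas).aemeasurable

/-- Resampling for a shifted Gaussian vector: along a unit direction `u` the coordinate is
`N(m,1)` with `m` the component of the mean, independent of the rest. -/
theorem lint_resample_mean (u μ : ι → ℝ) (hu : u ⬝ᵥ u = 1) (f : (ι → ℝ) → ℝ≥0∞)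
    (hf : Measurable f) :
    ∫⁻ x, f (μ + x) ∂(gv ι) =
      ∫⁻ x, ∫⁻ t, f ((μ + x) - (u ⬝ᵥ (μ + x)) • u + t • u) ∂(gaussianReal (u ⬝ᵥ μ) 1)
        ∂(gv ι) := by
  rw [lint_resample u hu (fun x => f (μ + x)) (by fun_prop)]
  apply lintegral_congr
  intro x
  have h1 : gaussianReal (u ⬝ᵥ μ) 1 = (gaussianReal 0 1).map (fun h => (u ⬝ᵥ μ) + h) := by
    rw [gaussianReal_map_const_add, zero_add]
  rw [h1, lintegral_map (by fun_prop) (by fun_prop)]
  apply lintegral_congr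
  intro h
  congr 1
  simp only [dotProduct_add]
  module

end Pool.Agent.W813.SV
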