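import Mathlib
import Pool.Agent.W813.SV.Stmt
import Pool.Agent.W813.SV.OneD
import Pool.Agent.W813.SV.Resample

/-! One row step: adding `δ` to a diagonal entry of the Gram matrix. -/

set_option autoImplicit false
open MeasureTheory ProbabilityTheory Set Matrix
open scoped ENNReal NNReal

namespace Pool.Agent.W813.SV

variable {n : ℕ}

/-- borel structure on matrices -/
@[reducible] noncomputable def matMS (n : ℕ) : MeasurableSpace (Matrix (Fin n) (Fin n) ℝ) := borel _

attribute [local instance] matMS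

lemma matBS (n : ℕ) : BorelSpace (Matrix (Fin n) (Fin n) ℝ) := ⟨rfl⟩

attribute [local instance] matBS

/-- matrix unit on the diagonal -/
noncomputable def dg (i : Fin n) : Matrix (Fin n) (Fin n) ℝ := Matrix.single i i 1

lemma dot_self_nonneg (v : Fin n → ℝ) : 0 ≤ v ⬝ᵥ v :=
  Finset.sum_nonneg fun i _ => mul_self_nonneg (v i)

/-- a unit vector orthogonal to all rows but the `i`-th -/
lemma exists_unit_orth (A : Matrix (Fin n) (Fin n) ℝ) (i : Fin n) :
    ∃ u : Fin n → ℝ, u ⬝ᵥ u = 1 ∧ ∀ j, j ≠ i → A j ⬝ᵥ u = 0 := by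
  have h0 : (A.updateRow i 0).det = 0 := Matrix.det_eq_zero_of_row_eq_zero i (by simp)
  obtain ⟨v, hv, hAv⟩ := Matrix.exists_mulVec_eq_zero_iff.2 h0
  have hpos : 0 < v ⬝ᵥ v := by
    rcases (dot_self_nonneg v).lt_or_eq with h | h
    · exact h
    · exact absurd (dotProduct_self_eq_zero.1 h.symm) hv
  refine ⟨(Real.sqrt (v ⬝ᵥ v))⁻¹ • v, ?_, ?_⟩
  · simp only [dotProduct_smul, smul_dotProduct, smul_eq_mul]
    have := Real.sq_sqrt hpos.le
    have h2 : Real.sqrt (v ⬝ᵥ v) ≠ 0 := (Real.sqrt_pos.2 hpos).ne'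
    field_simp
    linarith
  · intro j hj
    have h3 := congrFun hAv j
    simp only [Matrix.mulVec, Pi.zero_apply] at h3
    rw [Matrix.updateRow_ne hj] at h3
    rw [dotProduct_smul, h3, smul_zero]

/-- Gram matrix as a function of one row, along the direction `u`. -/
lemma gram_row (A : Matrix (Fin n) (Fin n) ℝ) (i : Fin n) (u q : Fin n → ℝ)
    (hu : u ⬝ᵥ u = 1) (hA : ∀ j, j ≠ i → A j ⬝ᵥ u = 0) (hq : q ⬝ᵥ u = 0) (t : ℝ) :
    (A.updateRow i (q + t • u)) * (A.updateRow i (q + t • u))ᵀ =
      (A.updateRow i q) * (A.updateRow i q)ᵀ + t ^ 2 • dg i := by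
  ext j k
  have hmul : ∀ (B : Matrix (Fin n) (Fin n) ℝ), (B * Bᵀ) j k = B j ⬝ᵥ B k := by
    intro B; simp [Matrix.mul_apply, dotProduct]
  rw [Matrix.add_apply, hmul, hmul, Matrix.smul_apply, dg, smul_eq_mul]
  by_cases hj : j = i
  · subst hj
    by_cases hk : k = j
    · subst hk
      simp only [Matrix.updateRow_self, Matrix.single_apply_same, mul_one]
      simp only [dotProduct_add, add_dotProduct, dotProduct_smul, smul_dotProduct, smul_eq_mul,
        hu, hq, dotProduct_comm u q]
      ring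
    · rw [Matrix.updateRow_self, Matrix.updateRow_ne hk, Matrix.updateRow_self,
        Matrix.updateRow_ne hk, Matrix.single_apply_of_col_ne _ _ (Ne.symm hk)]
      simp only [add_dotProduct, smul_dotProduct, smul_eq_mul, dotProduct_comm u (A k), hA k hk,
        mul_zero]
  · by_cases hk : k = i
    · subst hk
      rw [Matrix.updateRow_self, Matrix.updateRow_ne hj, Matrix.updateRow_self,
        Matrix.updateRow_ne hj, Matrix.single_apply_of_row_ne (Ne.symm hj)]
      simp only [dotProduct_add, dotProduct_smul, smul_eq_mul, hA j hj, mul_zero]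
    · rw [Matrix.updateRow_ne hj, Matrix.updateRow_ne hk, Matrix.updateRow_ne hj,
        Matrix.updateRow_ne hk, Matrix.single_apply_of_row_ne (Ne.symm hj)]
      simp

/-- determinant along the direction `u` -/
lemma det_row (A : Matrix (Fin n) (Fin n) ℝ) (i : Fin n) (u q : Fin n → ℝ)
    (hu : u ⬝ᵥ u = 1) (hA : ∀ j, j ≠ i → A j ⬝ᵥ u = 0) (hq : q ⬝ᵥ u = 0) (t : ℝ) :
    ((A.updateRow i (q + t • u)) * (A.updateRow i (q + t • u))ᵀ).det =
      t ^ 2 * (A.updateRow i u).det ^ 2 := by
  have h0 : (A.updateRow i q).det = 0 := by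
    apply Matrix.exists_mulVec_eq_zero_iff.1
    refine ⟨u, ?_, ?_⟩
    · rintro rfl; simp at hu
    · ext j
      by_cases hj : j = i
      · subst hj; simp [Matrix.mulVec, hq]
      · simp [Matrix.mulVec, Matrix.updateRow_ne hj, hA j hj]
  rw [Matrix.det_mul, Matrix.det_transpose, Matrix.det_updateRow_add, Matrix.det_updateRow_smul, h0]
  ring

/-- the ratio of determinants -/
lemma ratio_row (A : Matrix (Fin n) (Fin n) ℝ) (i : Fin n) (u q : Fin n → ℝ)
    (hu : u ⬝ᵥ u = 1) (hA : ∀ j, j ≠ i → A j ⬝ᵥ u = 0) (hq : q ⬝ᵥ u = 0) (t δ : ℝ) (hδ : 0 < δ) :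
    Real.sqrt (((A.updateRow i (q + t • u)) * (A.updateRow i (q + t • u))ᵀ).det /
      ((A.updateRow i (q + t • u)) * (A.updateRow i (q + t • u))ᵀ + δ • dg i).det) ≤
      |t| / Real.sqrt (t ^ 2 + δ) := by
  have h1 : (A.updateRow i (q + t • u)) * (A.updateRow i (q + t • u))ᵀ + δ • dg i =
      (A.updateRow i (q + Real.sqrt (t ^ 2 + δ) • u)) *
        (A.updateRow i (q + Real.sqrt (t ^ 2 + δ) • u))ᵀ := by
    rw [gram_row A i u q hu hA hq, gram_row A i u q hu hA hq, Real.sq_sqrt (by positivity)]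
    module
  rw [h1, det_row A i u q hu hA hq, det_row A i u q hu hA hq, Real.sq_sqrt (by positivity)]
  by_cases hk : (A.updateRow i u).det = 0
  · rw [hk]; simp; positivity
  · rw [mul_div_mul_right _ _ (by positivity), Real.sqrt_div (by positivity), Real.sqrt_sq_eq_abs]

lemma continuous_gram (M : Matrix (Fin n) (Fin n) ℝ) : Continuous (gram M) := by
  unfold gram
  have : Continuous (fun G : Fin n → Fin n → ℝ => M + Matrix.of G) :=
    continuous_const.add continuous_id
  exact this.matrix_mul this.matrix_transpose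

lemma measurable_ratio (D : Matrix (Fin n) (Fin n) ℝ) :
    Measurable (fun W : Matrix (Fin n) (Fin n) ℝ => ENNReal.ofReal (Real.sqrt (W.det / (W + D).det))) := by
  have h1 : Continuous (fun W : Matrix (Fin n) (Fin n) ℝ => W.det) := continuous_id.matrix_det
  have h2 : Continuous (fun W : Matrix (Fin n) (Fin n) ℝ => (W + D).det) :=
    (continuous_id.add continuous_const).matrix_det
  exact ((h1.measurable.div h2.measurable).sqrt).ennreal_ofReal

/-- **One row step.** -/
theorem step (F : Matrix (Fin n) (Fin n) ℝ → ℝ≥0∞) (hF : Measurable F)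
    (M : Matrix (Fin n) (Fin n) ℝ) (i : Fin n) (δ : ℝ) (hδ : 0 < δ) :
    ENNReal.ofReal (Real.exp (-δ / 2)) *
      ∫⁻ G, F (gram M G + δ • dg i) *
        ENNReal.ofReal (Real.sqrt ((gram M G).det / (gram M G + δ • dg i).det)) ∂(gm n) ≤
      ∫⁻ G, F (gram M G) ∂(gm n) := by
  have hg := (continuous_gram M).measurable
  have hr := measurable_ratio (δ • dg i)
  have hadd : Measurable (fun W : Matrix (Fin n) (Fin n) ℝ => W + δ • dg i) :=
    (continuous_id.add continuous_const).measurable
  have hm1 : Measurable (fun G => F (gram M G + δ • dg i) *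
        ENNReal.ofReal (Real.sqrt ((gram M G).det / (gram M G + δ • dg i).det))) :=
    (hF.comp (hadd.comp hg)).mul (hr.comp hg)
  have hm2 : Measurable (fun G => F (gram M G)) := hF.comp hg
  rw [← lintegral_const_mul _ hm1]
  apply lintegral_le_of_lmarginal_le {i} (hm1.const_mul _) hm2
  rw [lmarginal_singleton, lmarginal_singleton]
  intro G₀
  simp only
  set A : Matrix (Fin n) (Fin n) ℝ := M + Matrix.of G₀ with hAdef
  obtain ⟨u, hu, hA⟩ := exists_unit_orth A i
  have hgram : ∀ x : Fin n → ℝ, gram M (Function.update G₀ i x) =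
      (A.updateRow i (M i + x)) * (A.updateRow i (M i + x))ᵀ := by
    intro x
    unfold gram
    have : M + Matrix.of (Function.update G₀ i x) = A.updateRow i (M i + x) := by
      ext j k
      by_cases hj : j = i
      · subst hj; simp
      · simp [hAdef, Matrix.updateRow_ne hj, Function.update_of_ne hj]
    rw [this]
  simp_rw [hgram]
  have hrow : Continuous (fun y : Fin n → ℝ => A.updateRow i y) := by
    exact continuous_const.matrix_updateRow i continuous_id
  have hcg : Continuous (fun y : Fin n → ℝ => (A.updateRow i y) * (A.updateRow i y)ᵀ) :=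
    hrow.matrix_mul hrow.matrix_transpose
  have hf1 : Measurable (fun y : Fin n → ℝ => ENNReal.ofReal (Real.exp (-δ / 2)) *
      (F ((A.updateRow i y) * (A.updateRow i y)ᵀ + δ • dg i) *
      ENNReal.ofReal (Real.sqrt (((A.updateRow i y) * (A.updateRow i y)ᵀ).det /
        ((A.updateRow i y) * (A.updateRow i y)ᵀ + δ • dg i).det)))) :=
    ((hF.comp (hadd.comp hcg.measurable)).mul (hr.comp hcg.measurable)).const_mul _
  have hf2 : Measurable (fun y : Fin n → ℝ => F ((A.updateRow i y) * (A.updateRow i y)ᵀ)) :=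
    hF.comp hcg.measurable
  have e1 := lint_resample_mean u (M i) hu _ hf1
  have e2 := lint_resample_mean u (M i) hu _ hf2
  rw [e1, e2]
  apply lintegral_mono
  intro x
  beta_reduce
  set q : Fin n → ℝ := (M i + x) - (u ⬝ᵥ (M i + x)) • u with hqdef
  have hq : q ⬝ᵥ u = 0 := by
    rw [hqdef]
    simp only [sub_dotProduct, smul_dotProduct, smul_eq_mul, hu, dotProduct_comm u]
    ring
  set W : Matrix (Fin n) (Fin n) ℝ := (A.updateRow i q) * (A.updateRow i q)ᵀ with hW
  have hh : Measurable (fun s : ℝ => F (W + s • dg i)) := by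
    apply hF.comp
    apply Continuous.measurable
    exact continuous_const.add (continuous_id.smul continuous_const)
  have hmeas3 : Measurable (fun t : ℝ => F (W + (t ^ 2 + δ) • dg i) *
      ENNReal.ofReal (|t| / Real.sqrt (t ^ 2 + δ))) := by
    have := hh.comp (show Measurable (fun t : ℝ => t ^ 2 + δ) by fun_prop)
    exact this.mul (by fun_prop)
  calc _ ≤ ∫⁻ t, ENNReal.ofReal (Real.exp (-δ / 2)) * (F (W + (t ^ 2 + δ) • dg i) *
        ENNReal.ofReal (|t| / Real.sqrt (t ^ 2 + δ))) ∂(gaussianReal (u ⬝ᵥ M i) 1) := by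
        apply lintegral_mono
        intro t
        simp only
        have h2 := ratio_row A i u q hu hA hq t δ hδ
        have h3 : A.updateRow i (q + t • u) * (A.updateRow i (q + t • u))ᵀ + δ • dg i =
            W + (t ^ 2 + δ) • dg i := by
          rw [gram_row A i u q hu hA hq]; module
        rw [h3] at h2 ⊢
        gcongr
    _ = ENNReal.ofReal (Real.exp (-δ / 2)) * ∫⁻ t, F (W + (t ^ 2 + δ) • dg i) *
        ENNReal.ofReal (|t| / Real.sqrt (t ^ 2 + δ)) ∂(gaussianReal (u ⬝ᵥ M i) 1) := by
        rw [lintegral_const_mul _ hmeas3]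
    _ ≤ ∫⁻ t, F (W + (t ^ 2) • dg i) ∂(gaussianReal (u ⬝ᵥ M i) 1) :=
        shift_ineq (fun s => F (W + s • dg i)) hh _ δ hδ
    _ = _ := by
        apply lintegral_congr
        intro t
        rw [gram_row A i u q hu hA hq]

end Pool.Agent.W813.SV
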