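import Mathlib
import Pool.Agent.W813.SV.Step

/-! Part 1: lower bound for the probability that all singular values of `M + G` exceed
`sqrt δ`. -/

set_option autoImplicit false
open MeasureTheory ProbabilityTheory Set Matrix
open scoped ENNReal NNReal

namespace Pool.Agent.W813.SV

variable {n : ℕ}

attribute [local instance] matMS
attribute [local instance] matBS

lemma gram_psd (M : Matrix (Fin n) (Fin n) ℝ) (G : Fin n → Fin n → ℝ) :
    (gram M G).PosSemidef := by
  unfold gram
  have := Matrix.posSemidef_self_mul_conjTranspose (M + Matrix.of G)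
  rwa [Matrix.conjTranspose_eq_transpose_of_trivial] at this

lemma dg_psd (i : Fin n) : (dg i).PosSemidef := by
  have : dg i = Matrix.diagonal (Pi.single i (1:ℝ)) := by
    unfold dg
    rw [Matrix.diagonal_single]
  rw [this, Matrix.posSemidef_diagonal_iff]
  intro j
  by_cases h : j = i
  · subst h; simp
  · simp [Pi.single_eq_of_ne h]

lemma psd_posDef {W : Matrix (Fin n) (Fin n) ℝ} (h : W.PosSemidef) (hd : W.det ≠ 0) :
    W.PosDef := by
  rw [h.posDef_iff_isUnit, Matrix.isUnit_iff_isUnit_det]
  exact isUnit_iff_ne_zero.2 hd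

/-- product of the two ratios -/
lemma ratio_mul {W D D' : Matrix (Fin n) (Fin n) ℝ} (hW : W.PosSemidef) (hD : D.PosSemidef)
    (hD' : D'.PosSemidef) :
    ENNReal.ofReal (Real.sqrt ((W + D).det / (W + D + D').det)) *
      ENNReal.ofReal (Real.sqrt (W.det / (W + D).det)) =
      ENNReal.ofReal (Real.sqrt (W.det / (W + D + D').det)) := by
  by_cases h : W.det = 0
  · rw [h]; simp
  · have h1 := psd_posDef hW h
    have h2 : (W + D).PosDef := h1.add_posSemidef hD
    have h3 : (W + D + D').PosDef := h2.add_posSemidef hD'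
    have p1 := h1.det_pos
    have p2 := h2.det_pos
    have p3 := h3.det_pos
    rw [← ENNReal.ofReal_mul (Real.sqrt_nonneg _), ← Real.sqrt_mul (by positivity)]
    congr 2
    field_simp

/-- sum of the matrix units over a set of indices -/
noncomputable def dgs (S : Finset (Fin n)) : Matrix (Fin n) (Fin n) ℝ := ∑ i ∈ S, dg i

lemma dgs_psd (S : Finset (Fin n)) : (dgs S).PosSemidef :=
  Matrix.posSemidef_sum S fun i _ => dg_psd i

lemma dgs_univ : dgs (Finset.univ : Finset (Fin n)) = 1 := by
  unfold dgs dg
  rw [← Matrix.diagonal_one]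
  ext j k
  rw [Matrix.sum_apply]
  by_cases h : j = k
  · subst h
    rw [Finset.sum_eq_single j]
    · simp
    · intro b _ hb; exact Matrix.single_apply_of_row_ne hb _ _ _
    · simp
  · rw [Matrix.diagonal_apply_ne _ h]
    apply Finset.sum_eq_zero
    intro i _
    by_cases hi : i = j
    · subst hi
      exact Matrix.single_apply_of_col_ne _ _ h _
    · exact Matrix.single_apply_of_row_ne hi _ _ _

theorem steps (M : Matrix (Fin n) (Fin n) ℝ) (δ : ℝ) (hδ : 0 < δ) (S : Finset (Fin n)) :
    ∀ (F : Matrix (Fin n) (Fin n) ℝ → ℝ≥0∞), Measurable F →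
    ENNReal.ofReal (Real.exp (-(S.card * δ) / 2)) *
      ∫⁻ G, F (gram M G + δ • dgs S) *
        ENNReal.ofReal (Real.sqrt ((gram M G).det / (gram M G + δ • dgs S).det)) ∂(gm n) ≤
      ∫⁻ G, F (gram M G) ∂(gm n) := by
  induction S using Finset.induction_on with
  | empty =>
    intro F hF
    simp only [Finset.card_empty, CharP.cast_eq_zero, zero_mul, neg_zero, zero_div, Real.exp_zero,
      ENNReal.ofReal_one, one_mul, dgs, Finset.sum_empty, smul_zero, add_zero]
    apply lintegral_mono
    intro G
    beta_reduce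
    calc _ ≤ F (gram M G) * 1 := by
          gcongr
          rw [ENNReal.ofReal_le_one, Real.sqrt_le_one]
          exact div_self_le_one _
      _ = _ := mul_one _
  | insert i S hi ih =>
    intro F hF
    have hr := measurable_ratio (δ • dgs S)
    have hadd : Measurable (fun W : Matrix (Fin n) (Fin n) ℝ => W + δ • dgs S) :=
      (continuous_id.add continuous_const).measurable
    have h1 := ih F hF
    have h2 := step (fun W => F (W + δ • dgs S) *
        ENNReal.ofReal (Real.sqrt (W.det / (W + δ • dgs S).det)))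
        ((hF.comp hadd).mul hr) M i δ hδ
    have e0 : Real.exp (-((insert i S).card * δ) / 2) =
        Real.exp (-(S.card * δ) / 2) * Real.exp (-δ / 2) := by
      rw [← Real.exp_add, Finset.card_insert_of_notMem hi]
      congr 1
      push_cast
      ring
    have e1 : dgs (insert i S) = dg i + dgs S := by
      unfold dgs
      rw [Finset.sum_insert hi]
    have e2 : ∀ W : Matrix (Fin n) (Fin n) ℝ, W + δ • dgs (insert i S) =
        W + δ • dg i + δ • dgs S := by
      intro W; rw [e1, smul_add, add_assoc]
    have hd1 : (δ • dg i).PosSemidef := (dg_psd i).smul hδ.le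
    have hd2 : (δ • dgs S).PosSemidef := (dgs_psd S).smul hδ.le
    calc _ = ENNReal.ofReal (Real.exp (-(S.card * δ) / 2)) *
          (ENNReal.ofReal (Real.exp (-δ / 2)) *
            ∫⁻ G, F (gram M G + δ • dg i + δ • dgs S) *
              ENNReal.ofReal (Real.sqrt ((gram M G + δ • dg i).det /
                (gram M G + δ • dg i + δ • dgs S).det)) *
              ENNReal.ofReal (Real.sqrt ((gram M G).det / (gram M G + δ • dg i).det))
              ∂(gm n)) := by
          rw [e0, ENNReal.ofReal_mul (Real.exp_pos _).le, mul_assoc]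
          congr 2
          apply lintegral_congr
          intro G
          rw [e2, mul_assoc, ratio_mul (gram_psd M G) hd1 hd2]
      _ ≤ ENNReal.ofReal (Real.exp (-(S.card * δ) / 2)) *
          ∫⁻ G, F (gram M G + δ • dgs S) *
            ENNReal.ofReal (Real.sqrt ((gram M G).det / (gram M G + δ • dgs S).det)) ∂(gm n) := by
          gcongr
      _ ≤ _ := h1

lemma measurableSet_posDef (δ : ℝ) :
    MeasurableSet {W : Matrix (Fin n) (Fin n) ℝ | (W - δ • (1 : Matrix (Fin n) (Fin n) ℝ)).PosDef} := by
  have h1 : {W : Matrix (Fin n) (Fin n) ℝ | (W - δ • (1 : Matrix (Fin n) (Fin n) ℝ)).PosDef} =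
      (fun W => W - δ • (1 : Matrix (Fin n) (Fin n) ℝ)) ⁻¹'
        ({W | W.IsHermitian} ∩ (⋂ x : Fin n → ℝ, {W | 0 ≤ star x ⬝ᵥ (W *ᵥ x)}) ∩
          {W | W.det ≠ 0}) := by
    ext W
    simp only [Set.mem_ofPred_eq, mem_preimage, mem_inter_iff, mem_iInter]
    constructor
    · intro h
      have h2 := Matrix.posSemidef_iff_dotProduct_mulVec.1 h.posSemidef
      exact ⟨⟨h2.1, h2.2⟩, h.det_pos.ne'⟩
    · rintro ⟨⟨h1, h2⟩, h3⟩
      exact psd_posDef (Matrix.posSemidef_iff_dotProduct_mulVec.2 ⟨h1, h2⟩) h3
  rw [h1]
  have hc : Continuous (fun W : Matrix (Fin n) (Fin n) ℝ => W - δ • (1 : Matrix (Fin n) (Fin n) ℝ)) :=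
    continuous_id.sub continuous_const
  apply hc.measurable
  apply MeasurableSet.inter
  · apply MeasurableSet.inter
    · apply IsClosed.measurableSet
      exact isClosed_eq continuous_id.matrix_conjTranspose continuous_id
    · apply IsClosed.measurableSet
      apply isClosed_iInter
      intro x
      apply isClosed_le continuous_const
      exact continuous_const.dotProduct (continuous_id.matrix_mulVec continuous_const)
  · apply IsOpen.measurableSet
    exact isOpen_ne_fun continuous_id.matrix_det continuous_const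

theorem part1 : Part1 := by
  intro n M δ hδ
  have hS := measurableSet_posDef (n := n) δ
  have h := steps M δ hδ Finset.univ
    (Set.indicator {W : Matrix (Fin n) (Fin n) ℝ | (W - δ • (1 : Matrix (Fin n) (Fin n) ℝ)).PosDef} 1)
    (measurable_one.indicator hS)
  rw [dgs_univ, Finset.card_univ, Fintype.card_fin] at h
  refine le_trans (le_of_eq ?_) (h.trans (le_of_eq ?_))
  · congr 1
    apply lintegral_congr
    intro G
    by_cases hd : (gram M G).det = 0
    · rw [hd]; simp
    · have h1 := psd_posDef (gram_psd M G) hd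
      rw [Set.indicator_of_mem]
      · simp
      · simpa using h1
  · have : (fun G => Set.indicator {W : Matrix (Fin n) (Fin n) ℝ |
        (W - δ • (1 : Matrix (Fin n) (Fin n) ℝ)).PosDef}
          (1 : Matrix (Fin n) (Fin n) ℝ → ℝ≥0∞) (gram M G)) =
        Set.indicator {G | (gram M G - δ • (1 : Matrix (Fin n) (Fin n) ℝ)).PosDef} 1 := by
      funext G
      by_cases hG : (gram M G - δ • (1 : Matrix (Fin n) (Fin n) ℝ)).PosDef
      · rw [Set.indicator_of_mem (show gram M G ∈ {W : Matrix (Fin n) (Fin n) ℝ |
          (W - δ • (1 : Matrix (Fin n) (Fin n) ℝ)).PosDef} from hG),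
          Set.indicator_of_mem (show G ∈ {G : Fin n → Fin n → ℝ |
          (gram M G - δ • (1 : Matrix (Fin n) (Fin n) ℝ)).PosDef} from hG)]
        rfl
      · rw [Set.indicator_of_notMem (show gram M G ∉ {W : Matrix (Fin n) (Fin n) ℝ |
          (W - δ • (1 : Matrix (Fin n) (Fin n) ℝ)).PosDef} from hG),
          Set.indicator_of_notMem (show G ∉ {G : Fin n → Fin n → ℝ |
          (gram M G - δ • (1 : Matrix (Fin n) (Fin n) ℝ)).PosDef} from hG)]
    rw [this]
    exact lintegral_indicator_one ((continuous_gram M).measurable hS)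

end Pool.Agent.W813.SV
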