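import Mathlib
import Pool.Agent.W813.SV.Part1

/-! Assembly: Part 1 and Part 2 give the bound `sqrt n / (x σ)`. -/

set_option autoImplicit false
open MeasureTheory ProbabilityTheory Set Matrix
open scoped ENNReal NNReal

namespace Pool.Agent.W813.SV

variable {n : ℕ}

attribute [local instance] matMS
attribute [local instance] matBS

lemma one_sub_le_exp {y : ℝ} (hy : 0 ≤ y) : 1 - y ≤ Real.exp (-(y ^ 2) / 2 - y) := by
  by_cases h1 : 1 ≤ y
  · have := Real.exp_pos (-(y ^ 2) / 2 - y)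
    linarith
  · push Not at h1
    have hs := Real.hasSum_pow_div_log_of_abs_lt_one (x := y) (by rw [abs_of_nonneg hy]; exact h1)
    have h2 := sum_le_hasSum (Finset.range 2) (fun i _ => by positivity) hs
    simp only [Finset.sum_range_succ, Finset.range_zero, Finset.sum_empty] at h2
    have h3 : Real.log (1 - y) ≤ -(y ^ 2) / 2 - y := by
      norm_num at h2
      linarith
    calc 1 - y = Real.exp (Real.log (1 - y)) := (Real.exp_log (by linarith)).symm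
      _ ≤ _ := Real.exp_le_exp.2 h3

lemma cauchy (v w : Fin n → ℝ) : (v ⬝ᵥ w) ^ 2 ≤ (v ⬝ᵥ v) * (w ⬝ᵥ w) := by
  have := Finset.sum_mul_sq_le_sq_mul_sq Finset.univ v w
  simp only [dotProduct, ← pow_two]
  exact this

/-- On the good event the inverse is small. -/
lemma good_event (A : Matrix (Fin n) (Fin n) ℝ) (δ : ℝ) (hδ : 0 < δ)
    (h : (A * Aᵀ - δ • (1 : Matrix (Fin n) (Fin n) ℝ)).PosDef) (v : Fin n → ℝ)
    (hv : v ⬝ᵥ v ≤ 1) : (A⁻¹ *ᵥ v) ⬝ᵥ (A⁻¹ *ᵥ v) < 1 / δ := by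
  have hW : (A * Aᵀ).PosDef := by
    have h1 : (δ • (1 : Matrix (Fin n) (Fin n) ℝ)).PosSemidef := Matrix.PosSemidef.one.smul hδ.le
    have h2 := h.add_posSemidef h1
    rwa [sub_add_cancel] at h2
  have hdet : A.det ≠ 0 := by
    intro h0
    have := hW.det_pos
    rw [Matrix.det_mul, h0, zero_mul] at this
    exact lt_irrefl _ this
  have hu : IsUnit A.det := isUnit_iff_ne_zero.2 hdet
  have huT : IsUnit Aᵀ.det := by rwa [Matrix.det_transpose]
  set y := A⁻¹ *ᵥ v with hy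
  have hAy : A *ᵥ y = v := by
    rw [hy, Matrix.mulVec_mulVec, Matrix.mul_nonsing_inv _ hu, Matrix.one_mulVec]
  by_cases hy0 : y = 0
  · rw [hy0]; simp [hδ]
  set w := (Aᵀ)⁻¹ *ᵥ y with hw
  have hAw : Aᵀ *ᵥ w = y := by
    rw [hw, Matrix.mulVec_mulVec, Matrix.mul_nonsing_inv _ huT, Matrix.one_mulVec]
  have hw0 : w ≠ 0 := by
    intro h0
    rw [h0, Matrix.mulVec_zero] at hAw
    exact hy0 hAw.symm
  have h3 := h.dotProduct_mulVec_pos hw0
  have h4 : star w ⬝ᵥ ((A * Aᵀ - δ • (1 : Matrix (Fin n) (Fin n) ℝ)) *ᵥ w) =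
      y ⬝ᵥ y - δ * (w ⬝ᵥ w) := by
    rw [Matrix.sub_mulVec, dotProduct_sub, Matrix.smul_mulVec, Matrix.one_mulVec, dotProduct_smul,
      ← Matrix.mulVec_mulVec, hAw, star_trivial, smul_eq_mul]
    congr 1
    rw [Matrix.dotProduct_mulVec, ← Matrix.mulVec_transpose, hAw]
  rw [h4] at h3
  have h5 : y ⬝ᵥ y = v ⬝ᵥ w := by
    nth_rewrite 2 [← hAw]
    rw [Matrix.dotProduct_mulVec, Matrix.vecMul_transpose, hAy]
  have h6 := cauchy v w
  rw [← h5] at h6
  have hyp : 0 < y ⬝ᵥ y := by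
    rcases (dot_self_nonneg y).lt_or_eq with h | h
    · exact h
    · exact absurd (dotProduct_self_eq_zero.1 h.symm) hy0
  have h7 : (v ⬝ᵥ v) * (w ⬝ᵥ w) ≤ w ⬝ᵥ w := by
    have := mul_le_mul_of_nonneg_right hv (dot_self_nonneg w)
    rwa [one_mul] at this
  rw [lt_div_iff₀ hδ]
  have h8 : δ * (y ⬝ᵥ y) ^ 2 < y ⬝ᵥ y := by nlinarith
  nlinarith

theorem assemble (p2 : Part2) :
    ∀ (n : ℕ) (Abar : Matrix (Fin n) (Fin n) ℝ) (σ x : ℝ), 0 < σ → 0 < x →
      (Measure.pi (fun _ : Fin n => Measure.pi (fun _ : Fin n => gaussianReal 0 1)))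
        {G : Fin n → Fin n → ℝ |
          ∃ v : Fin n → ℝ, (∑ i, v i ^ 2 ≤ 1) ∧
            x ^ 2 ≤ ∑ i, (Matrix.mulVec (Abar + σ • Matrix.of G)⁻¹ v) i ^ 2}
        ≤ ENNReal.ofReal (Real.sqrt n / (x * σ)) := by
  intro n Abar σ x hσ hx
  set M : Matrix (Fin n) (Fin n) ℝ := σ⁻¹ • Abar with hM
  set δ : ℝ := 1 / (x * σ) ^ 2 with hδdef
  have hδ : 0 < δ := by positivity
  set P : Set (Fin n → Fin n → ℝ) :=
    {G | (gram M G - δ • (1 : Matrix (Fin n) (Fin n) ℝ)).PosDef} with hP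
  have hPm : MeasurableSet P := (continuous_gram M).measurable (measurableSet_posDef δ)
  have hsub : {G : Fin n → Fin n → ℝ |
          ∃ v : Fin n → ℝ, (∑ i, v i ^ 2 ≤ 1) ∧
            x ^ 2 ≤ ∑ i, (Matrix.mulVec (Abar + σ • Matrix.of G)⁻¹ v) i ^ 2} ⊆ Pᶜ := by
    rintro G ⟨v, hv1, hv2⟩ hG
    have hG' : ((M + Matrix.of G) * (M + Matrix.of G)ᵀ -
      δ • (1 : Matrix (Fin n) (Fin n) ℝ)).PosDef := hG
    have h1 := good_event (M + Matrix.of G) δ hδ hG' v (by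
      simpa [dotProduct, pow_two] using hv1)
    have hA : Abar + σ • Matrix.of G = σ • (M + Matrix.of G) := by
      rw [hM, smul_add, smul_smul, mul_inv_cancel₀ hσ.ne', one_smul]
    have hW : ((M + Matrix.of G) * (M + Matrix.of G)ᵀ).PosDef := by
      have h1 : (δ • (1 : Matrix (Fin n) (Fin n) ℝ)).PosSemidef := Matrix.PosSemidef.one.smul hδ.le
      have h2 := hG'.add_posSemidef h1
      rwa [sub_add_cancel] at h2
    have hdet : (M + Matrix.of G).det ≠ 0 := by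
      intro h0
      have := hW.det_pos
      rw [Matrix.det_mul, h0, zero_mul] at this
      exact lt_irrefl _ this
    have hinv : (σ • (M + Matrix.of G))⁻¹ = σ⁻¹ • (M + Matrix.of G)⁻¹ := by
      apply Matrix.inv_eq_left_inv
      rw [Matrix.smul_mul, Matrix.mul_smul, smul_smul,
        Matrix.nonsing_inv_mul _ (isUnit_iff_ne_zero.2 hdet), inv_mul_cancel₀ hσ.ne', one_smul]
    rw [hA, hinv] at hv2
    have h2 : ∑ i, (Matrix.mulVec (σ⁻¹ • (M + Matrix.of G)⁻¹) v) i ^ 2 =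
        (σ⁻¹) ^ 2 * (((M + Matrix.of G)⁻¹ *ᵥ v) ⬝ᵥ ((M + Matrix.of G)⁻¹ *ᵥ v)) := by
      rw [Matrix.smul_mulVec, dotProduct, Finset.mul_sum]
      apply Finset.sum_congr rfl
      intro i _
      simp only [Pi.smul_apply, smul_eq_mul]
      ring
    rw [h2] at hv2
    have h3 : 1 / δ = (x * σ) ^ 2 := by
      rw [hδdef]; field_simp
    rw [h3] at h1
    have h4 : (σ⁻¹) ^ 2 * (((M + Matrix.of G)⁻¹ *ᵥ v) ⬝ᵥ ((M + Matrix.of G)⁻¹ *ᵥ v)) <
        (σ⁻¹) ^ 2 * (x * σ) ^ 2 := mul_lt_mul_of_pos_left h1 (by positivity)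
    have h5 : (σ⁻¹) ^ 2 * (x * σ) ^ 2 = x ^ 2 := by
      field_simp
    rw [h5] at h4
    exact absurd hv2 (not_le.2 h4)
  have hPlow : ENNReal.ofReal (Real.exp (-(n * δ) / 2 - Real.sqrt (n * δ))) ≤ gm n P := by
    have h1 := part1 n M δ hδ
    have h2 := p2 n M δ hδ
    refine le_trans ?_ h1
    rw [show -(n * δ) / 2 - Real.sqrt (n * δ) = -(n * δ) / 2 + -Real.sqrt (n * δ) by ring,
      Real.exp_add, ENNReal.ofReal_mul (Real.exp_pos _).le]
    gcongr
  calc _ ≤ gm n Pᶜ := measure_mono hsub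
    _ = 1 - gm n P := prob_compl_eq_one_sub hPm
    _ ≤ 1 - ENNReal.ofReal (Real.exp (-(n * δ) / 2 - Real.sqrt (n * δ))) :=
        tsub_le_tsub_left hPlow 1
    _ ≤ ENNReal.ofReal (Real.sqrt (n * δ)) := by
        rw [tsub_le_iff_left, ← ENNReal.ofReal_add (Real.exp_pos _).le (Real.sqrt_nonneg _),
          ← ENNReal.ofReal_one]
        apply ENNReal.ofReal_le_ofReal
        have h1 := one_sub_le_exp (Real.sqrt_nonneg (n * δ))
        rw [Real.sq_sqrt (by positivity)] at h1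
        linarith
    _ = _ := by
        congr 1
        rw [hδdef, mul_one_div, Real.sqrt_div (by positivity), Real.sqrt_sq (by positivity)]

end Pool.Agent.W813.SV
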