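import Mathlib
import Pool.Agent.W813.SV.Stmt
import Pool.Agent.W813.SV.Resample

/-! Densities of Gaussian product measures, almost sure invertibility and the Gaussian
determinant integral. The two lemmas on densities of product measures are copied from
Pool.Agent.Helper954.Hopf.PX. -/

set_option autoImplicit false
open MeasureTheory ProbabilityTheory Set Matrix
open scoped ENNReal NNReal

namespace Pool.Agent.W813.SV

theorem lintegral_pi_prod {J : Type} [Fintype J] [DecidableEq J] {X : J → Type}
    [∀ j, MeasurableSpace (X j)] (μ : ∀ j, Measure (X j)) [∀ j, SigmaFinite (μ j)]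
    (f : ∀ j, X j → ℝ≥0∞) (hf : ∀ j, Measurable (f j)) :
    ∫⁻ x, ∏ j, f j (x j) ∂Measure.pi μ = ∏ j, ∫⁻ x, f j x ∂μ j := by
  classical
  by_cases hne : Nonempty (∀ j, X j)
  · obtain ⟨x0⟩ := hne
    have hm : Measurable (fun x : ∀ j, X j => ∏ j, f j (x j)) :=
      Finset.measurable_prod _ fun j _ => (hf j).comp (measurable_pi_apply j)
    have key : ∀ s : Finset J, ∀ x : ∀ j, X j,
        (∫⋯∫⁻_s, (fun x : ∀ j, X j => ∏ j, f j (x j)) ∂μ) x
          = (∏ j ∈ s, ∫⁻ y, f j y ∂μ j) * ∏ j ∈ sᶜ, f j (x j) := by
      intro s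
      induction s using Finset.induction_on with
      | empty => intro x; rw [lmarginal_empty]; simp
      | insert i s hi ih =>
        intro x
        rw [lmarginal_insert _ hm hi]
        simp only [ih]
        have hc : sᶜ = insert i (insert i s)ᶜ := by
          ext j
          by_cases hj : j = i
          · subst hj; simp [hi]
          · simp [hj]
        have hni : i ∉ (insert i s)ᶜ := by simp
        have h1 : ∀ y : X i, ∏ j ∈ sᶜ, f j (Function.update x i y j)
            = f i y * ∏ j ∈ (insert i s)ᶜ, f j (x j) := by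
          intro y
          rw [hc, Finset.prod_insert hni, Function.update_self]
          congr 1
          apply Finset.prod_congr rfl
          intro j hj
          have : j ≠ i := by
            rintro rfl; exact hni hj
          rw [Function.update_of_ne this]
        simp only [h1]
        have h2 : Measurable (fun y : X i => f i y * ∏ j ∈ (insert i s)ᶜ, f j (x j)) :=
          (hf i).mul_const _
        rw [lintegral_const_mul _ h2, lintegral_mul_const _ (hf i), Finset.prod_insert hi]
        ring
    have := key Finset.univ x0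
    rw [← lintegral_eq_lmarginal_univ] at this
    rw [this]
    simp
  · rw [not_nonempty_iff] at hne
    have h0 : ∃ j, IsEmpty (X j) := by
      by_contra hc
      push Not at hc
      apply hne.false
      exact fun j => (hc j).some
    obtain ⟨j, hj⟩ := h0
    have h1 : ∏ j, ∫⁻ x, f j x ∂μ j = 0 := by
      apply Finset.prod_eq_zero (Finset.mem_univ j)
      rw [lintegral_of_isEmpty]
    rw [h1, lintegral_of_isEmpty]

theorem pi_withDensity {J : Type} [Fintype J] [DecidableEq J] {X : J → Type}
    [∀ j, MeasurableSpace (X j)] (μ : ∀ j, Measure (X j)) [∀ j, SigmaFinite (μ j)]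
    (f : ∀ j, X j → ℝ≥0∞) (hf : ∀ j, Measurable (f j)) (hft : ∀ j x, f j x ≠ ⊤) :
    Measure.pi (fun j => (μ j).withDensity (f j)) =
      (Measure.pi μ).withDensity (fun x => ∏ j, f j (x j)) := by
  have : ∀ j, SigmaFinite ((μ j).withDensity (f j)) := fun j =>
    SigmaFinite.withDensity_of_ne_top' (hft j)
  refine (Measure.pi_eq fun s hs => ?_)
  rw [withDensity_apply _ (MeasurableSet.univ_pi hs), Measure.restrict_pi_pi,
    lintegral_pi_prod _ f hf]
  apply Finset.prod_congr rfl
  intro j _
  rw [withDensity_apply _ (hs j)]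


theorem gm_ac (n : ℕ) : gm n ≪ (volume : Measure (Fin n → Fin n → ℝ)) := by
  have h1 : gaussianReal 0 1 = (volume : Measure ℝ).withDensity (gaussianPDF 0 1) :=
    gaussianReal_of_var_ne_zero 0 one_ne_zero
  have h2 : (Measure.pi (fun _ : Fin n => gaussianReal 0 1)) =
      (Measure.pi (fun _ : Fin n => (volume : Measure ℝ))).withDensity
        (fun x => ∏ j, gaussianPDF 0 1 (x j)) := by
    rw [h1]
    exact pi_withDensity (fun _ : Fin n => (volume : Measure ℝ)) (fun _ => gaussianPDF 0 1)
      (fun _ => measurable_gaussianPDF 0 1) (fun _ _ => gaussianPDF_ne_top)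
  have h3 : gm n = (Measure.pi (fun _ : Fin n =>
      (Measure.pi (fun _ : Fin n => (volume : Measure ℝ))))).withDensity
        (fun x => ∏ i, ∏ j, gaussianPDF 0 1 (x i j)) := by
    unfold gm
    simp_rw [h2]
    exact pi_withDensity (fun _ : Fin n => (Measure.pi (fun _ : Fin n => (volume : Measure ℝ))))
      (fun _ x => ∏ j, gaussianPDF 0 1 (x j))
      (fun _ => Finset.measurable_fun_prod _ fun i _ =>
        (measurable_gaussianPDF 0 1).comp (measurable_pi_apply i))
      (fun _ _ => ENNReal.prod_ne_top fun i _ => gaussianPDF_ne_top)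
  rw [h3]
  exact withDensity_absolutelyContinuous _ _

theorem det_ne_zero_ae (n : ℕ) (M : Matrix (Fin n) (Fin n) ℝ) :
    ∀ᵐ G ∂(gm n), (M + Matrix.of G).det ≠ 0 := by
  apply (gm_ac n).ae_le
  have hc : Continuous (fun G : Fin n → Fin n → ℝ => (M + Matrix.of G).det) := by
    have : Continuous (fun G : Fin n → Fin n → ℝ => M + Matrix.of G) :=
      continuous_const.add continuous_id
    exact this.matrix_det
  have hs : MeasurableSet {G : Fin n → Fin n → ℝ | (M + Matrix.of G).det ≠ 0} :=
    (isOpen_ne_fun hc continuous_const).measurableSet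
  let L : ℝ →ₗ[ℝ] (Fin n → Fin n → ℝ) :=
    LinearMap.toSpanSingleton ℝ (Fin n → Fin n → ℝ) (Matrix.of.symm (1 : Matrix (Fin n) (Fin n) ℝ))
  refine ae_mem_of_ae_add_linearMap_mem L (volume : Measure ℝ)
    (volume : Measure (Fin n → Fin n → ℝ)) hs ?_
  intro y
  have h1 : ∀ s : ℝ, (M + Matrix.of (y + L s)).det =
      (-(M + Matrix.of y)).charpoly.eval s := by
    intro s
    rw [Matrix.eval_charpoly]
    congr 1
    have : Matrix.of (y + L s) = Matrix.of y + s • (1 : Matrix (Fin n) (Fin n) ℝ) := rfl
    rw [this, Matrix.scalar_apply, ← Matrix.smul_one_eq_diagonal]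
    abel
  have h2 : {s : ℝ | ¬ (y + L s ∈ {G : Fin n → Fin n → ℝ | (M + Matrix.of G).det ≠ 0})} ⊆
      ((-(M + Matrix.of y)).charpoly.rootSet ℝ) := by
    intro s hs
    have hs' : (M + Matrix.of (y + L s)).det = 0 := by
      by_contra hne
      exact hs hne
    rw [h1] at hs'
    rw [Polynomial.mem_rootSet]
    refine ⟨(Matrix.charpoly_monic _).ne_zero, ?_⟩
    simpa [Polynomial.aeval_def, Polynomial.eval₂_eq_eval_map] using hs'
  refine measure_mono_null h2 ?_
  exact (Polynomial.rootSet_finite _ _).measure_zero _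

end Pool.Agent.W813.SV
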