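import Mathlib
import Pool.Agent.W813.SV.Dens

/-! Gaussian determinant integral. -/

set_option autoImplicit false
open MeasureTheory ProbabilityTheory Set Matrix
open scoped ENNReal NNReal

namespace Pool.Agent.W813.SV

variable {n : ℕ}

/-- density of the standard Gaussian vector -/
noncomputable def gd (n : ℕ) (q : ℝ) : ℝ≥0∞ :=
  ENNReal.ofReal ((Real.sqrt (2 * Real.pi))⁻¹ ^ n * Real.exp (-q / 2))

lemma gv_dens (n : ℕ) : gv (Fin n) =
    (volume : Measure (Fin n → ℝ)).withDensity (fun x => gd n (x ⬝ᵥ x)) := by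
  have h1 : gaussianReal 0 1 = (volume : Measure ℝ).withDensity (gaussianPDF 0 1) :=
    gaussianReal_of_var_ne_zero 0 one_ne_zero
  have h2 : gv (Fin n) =
      (Measure.pi (fun _ : Fin n => (volume : Measure ℝ))).withDensity
        (fun x => ∏ j, gaussianPDF 0 1 (x j)) := by
    unfold gv
    rw [h1]
    exact pi_withDensity (fun _ : Fin n => (volume : Measure ℝ)) (fun _ => gaussianPDF 0 1)
      (fun _ => measurable_gaussianPDF 0 1) (fun _ _ => gaussianPDF_ne_top)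
  rw [h2, ← volume_pi]
  congr 1
  funext x
  unfold gaussianPDF gaussianPDFReal gd
  rw [← ENNReal.ofReal_prod_of_nonneg (fun i _ => by positivity), Finset.prod_mul_distrib,
    Finset.prod_const, Finset.card_univ, Fintype.card_fin, ← Real.exp_sum]
  congr 2
  · simp
  · congr 1
    simp only [dotProduct, sub_zero, NNReal.coe_one, mul_one]
    rw [← Finset.sum_neg_distrib, Finset.sum_div]
    apply Finset.sum_congr rfl
    intro i _
    ring

lemma lint_gv (f : (Fin n → ℝ) → ℝ≥0∞) (hf : Measurable f) :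
    ∫⁻ z, f z ∂(gv (Fin n)) = ∫⁻ z, gd n (z ⬝ᵥ z) * f z := by
  have hm : Measurable (fun x : Fin n → ℝ => gd n (x ⬝ᵥ x)) := by
    unfold gd dotProduct; fun_prop
  rw [gv_dens, lintegral_withDensity_eq_lintegral_mul _ hm hf]
  rfl

lemma lint_gd : ∫⁻ z : Fin n → ℝ, gd n (z ⬝ᵥ z) = 1 := by
  have h := lint_gv (n := n) (fun _ => 1) measurable_const
  simp only [lintegral_const, measure_univ, mul_one] at h
  exact h.symm

/-- linear change of variables -/
lemma lint_gd_lin (C : Matrix (Fin n) (Fin n) ℝ) (hC : C.det ≠ 0) :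
    ∫⁻ z : Fin n → ℝ, gd n ((C *ᵥ z) ⬝ᵥ (C *ᵥ z)) = ENNReal.ofReal |C.det⁻¹| := by
  have h1 := Real.map_matrix_volume_pi_eq_smul_volume_pi hC
  have hm : Measurable (fun x : Fin n → ℝ => gd n (x ⬝ᵥ x)) := by
    unfold gd dotProduct; fun_prop
  have h2 : ∫⁻ z : Fin n → ℝ, gd n (z ⬝ᵥ z) ∂(Measure.map (Matrix.toLin' C) volume) =
      ENNReal.ofReal |C.det⁻¹| := by
    rw [h1, lintegral_smul_measure, lint_gd, smul_eq_mul, mul_one]
  rw [lintegral_map hm (LinearMap.continuous_of_finiteDimensional _).measurable] at h2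
  simpa using h2

open scoped MatrixOrder in
lemma exists_factor {W : Matrix (Fin n) (Fin n) ℝ} (hW : W.PosSemidef) :
    ∃ C : Matrix (Fin n) (Fin n) ℝ, W = Cᵀ * C := by
  obtain ⟨C, hC⟩ := CStarAlgebra.nonneg_iff_eq_star_mul_self.mp hW.nonneg
  refine ⟨C, ?_⟩
  rw [hC, Matrix.star_eq_conjTranspose, Matrix.conjTranspose_eq_transpose_of_trivial]

/-- **Gaussian determinant integral.** -/
theorem det_integral (A : Matrix (Fin n) (Fin n) ℝ) (hA : A.det ≠ 0) (δ : ℝ) (hδ : 0 < δ) :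
    ∫⁻ z, ENNReal.ofReal (Real.exp (-(δ * ((A⁻¹ *ᵥ z) ⬝ᵥ (A⁻¹ *ᵥ z))) / 2)) ∂(gv (Fin n)) =
      ENNReal.ofReal (Real.sqrt ((A * Aᵀ).det / (A * Aᵀ + δ • (1 : Matrix (Fin n) (Fin n) ℝ)).det)) := by
  have hu : IsUnit A.det := isUnit_iff_ne_zero.2 hA
  set B : Matrix (Fin n) (Fin n) ℝ := A⁻¹ with hB
  have hBA : B * A = 1 := Matrix.nonsing_inv_mul _ hu
  have hAB : A * B = 1 := Matrix.mul_nonsing_inv _ hu
  have hP : (1 + δ • (Bᵀ * B)).PosDef := by
    apply Matrix.PosDef.one.add_posSemidef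
    have := Matrix.posSemidef_conjTranspose_mul_self B
    rw [Matrix.conjTranspose_eq_transpose_of_trivial] at this
    exact this.smul hδ.le
  obtain ⟨C, hC⟩ := exists_factor hP.posSemidef
  have hdet : C.det ^ 2 = (1 + δ • (Bᵀ * B)).det := by
    rw [hC, Matrix.det_mul, Matrix.det_transpose]; ring
  have hpos := hP.det_pos
  have hC0 : C.det ≠ 0 := by
    intro h0
    rw [← hdet, h0] at hpos
    simp at hpos
  have hm : Measurable (fun z : Fin n → ℝ =>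
      ENNReal.ofReal (Real.exp (-(δ * ((B *ᵥ z) ⬝ᵥ (B *ᵥ z))) / 2))) := by
    have : Continuous (fun z : Fin n → ℝ => (B *ᵥ z) ⬝ᵥ (B *ᵥ z)) := by
      have h1 : Continuous (fun z : Fin n → ℝ => B *ᵥ z) := continuous_const.matrix_mulVec continuous_id
      exact h1.dotProduct h1
    fun_prop
  rw [lint_gv _ hm]
  have h1 : ∀ z : Fin n → ℝ, gd n (z ⬝ᵥ z) *
      ENNReal.ofReal (Real.exp (-(δ * ((B *ᵥ z) ⬝ᵥ (B *ᵥ z))) / 2)) =
      gd n ((C *ᵥ z) ⬝ᵥ (C *ᵥ z)) := by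
    intro z
    unfold gd
    rw [← ENNReal.ofReal_mul (by positivity), mul_assoc, ← Real.exp_add]
    congr 3
    have h2 : (C *ᵥ z) ⬝ᵥ (C *ᵥ z) = z ⬝ᵥ z + δ * ((B *ᵥ z) ⬝ᵥ (B *ᵥ z)) := by
      have e1 : (C *ᵥ z) ⬝ᵥ (C *ᵥ z) = z ⬝ᵥ ((Cᵀ * C) *ᵥ z) := by
        rw [← Matrix.mulVec_mulVec, Matrix.dotProduct_mulVec z, Matrix.vecMul_transpose]
      have e2 : (B *ᵥ z) ⬝ᵥ (B *ᵥ z) = z ⬝ᵥ ((Bᵀ * B) *ᵥ z) := by
        rw [← Matrix.mulVec_mulVec, Matrix.dotProduct_mulVec z, Matrix.vecMul_transpose]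
      rw [e1, e2, ← hC, Matrix.add_mulVec, Matrix.one_mulVec, dotProduct_add, Matrix.smul_mulVec,
        dotProduct_smul, smul_eq_mul]
    rw [h2]; ring
  simp_rw [h1]
  rw [lint_gd_lin C hC0]
  congr 1
  have h3 : (A * Aᵀ + δ • (1 : Matrix (Fin n) (Fin n) ℝ)).det = A.det ^ 2 * C.det ^ 2 := by
    have e1 : A * Aᵀ + δ • (1 : Matrix (Fin n) (Fin n) ℝ) =
        A * (1 + δ • (B * Bᵀ)) * Aᵀ := by
      rw [Matrix.mul_add, Matrix.add_mul, Matrix.mul_one, Matrix.mul_smul, Matrix.smul_mul,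
        ← Matrix.mul_assoc A B, hAB, Matrix.one_mul, ← Matrix.transpose_mul, hAB,
        Matrix.transpose_one]
    rw [e1, Matrix.det_mul, Matrix.det_mul, Matrix.det_transpose, hdet]
    have e2 : (1 + δ • (B * Bᵀ)).det = (1 + δ • (Bᵀ * B)).det := by
      rw [← Matrix.smul_mul, ← Matrix.mul_smul, Matrix.det_one_add_mul_comm]
    rw [e2]; ring
  rw [h3, Matrix.det_mul, Matrix.det_transpose]
  rw [show A.det * A.det / (A.det ^ 2 * C.det ^ 2) = (C.det⁻¹) ^ 2 by field_simp,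
    Real.sqrt_sq_eq_abs]

end Pool.Agent.W813.SV
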