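import Mathlib
import Pool.Agent.W813.SV.Stmt
import Pool.Agent.W813.SV.Resample

/-! Resampling the rows of a Gaussian matrix in one direction. -/

set_option autoImplicit false
open MeasureTheory ProbabilityTheory Set Matrix
open scoped ENNReal NNReal

namespace Pool.Agent.W813.SV

variable {n : ℕ}

/-- inner product of two row families -/
noncomputable def dd (w G : Fin n → Fin n → ℝ) : ℝ := ∑ i, w i ⬝ᵥ G i

lemma continuous_dd (w : Fin n → Fin n → ℝ) : Continuous (fun G => dd w G) := by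
  unfold dd dotProduct; fun_prop

lemma integral_exp_dd (w : Fin n → Fin n → ℝ) :
    ∫ G, Complex.exp (((dd w G : ℝ) : ℂ) * Complex.I) ∂(gm n) =
      Complex.exp (-((dd w w : ℝ) : ℂ) / 2) := by
  have e : ∀ G : Fin n → Fin n → ℝ, Complex.exp (((dd w G : ℝ) : ℂ) * Complex.I) =
      ∏ i, Complex.exp (((w i ⬝ᵥ G i : ℝ) : ℂ) * Complex.I) := by
    intro G
    rw [← Complex.exp_sum]
    congr 1
    simp only [dd, Complex.ofReal_sum, Finset.sum_mul]
  simp_rw [e]
  rw [integral_fintype_prod_eq_prod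
    (f := fun i (y : Fin n → ℝ) => Complex.exp (((w i ⬝ᵥ y : ℝ) : ℂ) * Complex.I))]
  simp_rw [integral_exp_dot]
  rw [← Complex.exp_sum]
  congr 1
  simp only [dd, Complex.ofReal_sum, ← Finset.sum_neg_distrib, Finset.sum_div]

lemma exists_dd (L : StrongDual ℝ (Fin n → Fin n → ℝ)) :
    ∃ w : Fin n → Fin n → ℝ, ∀ G, L G = dd w G := by
  have h1 : ∀ i, ∃ w : Fin n → ℝ, ∀ x, (L.comp (ContinuousLinearMap.single ℝ
      (fun _ : Fin n => Fin n → ℝ) i)) x = w ⬝ᵥ x := fun i => exists_dot _
  choose w hw using h1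
  refine ⟨w, fun G => ?_⟩
  have h2 : G = ∑ i, Pi.single i (G i) := (Finset.univ_sum_single G).symm
  conv_lhs => rw [h2]
  rw [map_sum]
  unfold dd
  apply Finset.sum_congr rfl
  intro i _
  rw [← hw i (G i)]
  rfl

lemma ext_dd {μ ν : Measure (Fin n → Fin n → ℝ)} [IsFiniteMeasure μ] [IsFiniteMeasure ν]
    (h : ∀ w : Fin n → Fin n → ℝ, ∫ G, Complex.exp (((dd w G : ℝ) : ℂ) * Complex.I) ∂μ =
      ∫ G, Complex.exp (((dd w G : ℝ) : ℂ) * Complex.I) ∂ν) : μ = ν := by
  apply Measure.ext_of_charFunDual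
  ext L
  obtain ⟨w, hw⟩ := exists_dd L
  rw [charFunDual_apply, charFunDual_apply]
  simp_rw [hw]
  exact h w

/-- combination of the rows with coefficients `a` -/
noncomputable def comb (a : Fin n → ℝ) (G : Fin n → Fin n → ℝ) : Fin n → ℝ := ∑ k, a k • G k

/-- the resampled matrix -/
noncomputable def rs (a : Fin n → ℝ) (G : Fin n → Fin n → ℝ) (h : Fin n → ℝ) :
    Fin n → Fin n → ℝ := fun i => G i - a i • comb a G + a i • h

lemma continuous_rs (a : Fin n → ℝ) :
    Continuous (fun p : (Fin n → Fin n → ℝ) × (Fin n → ℝ) => rs a p.1 p.2) := by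
  unfold rs comb; fun_prop

lemma dd_rs (a : Fin n → ℝ) (w G : Fin n → Fin n → ℝ) (h : Fin n → ℝ) :
    dd w (rs a G h) = dd (fun i => w i - a i • comb a w) G + comb a w ⬝ᵥ h := by
  have e1 : ∑ i, a i * (w i ⬝ᵥ comb a G) = comb a w ⬝ᵥ comb a G := by
    unfold comb
    rw [sum_dotProduct]
    apply Finset.sum_congr rfl
    intro i _
    rw [smul_dotProduct, smul_eq_mul]
  have e2 : ∑ i, a i * (comb a w ⬝ᵥ G i) = comb a w ⬝ᵥ comb a G := by
    conv_rhs => unfold comb
    rw [dotProduct_sum]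
    apply Finset.sum_congr rfl
    intro i _
    rw [dotProduct_smul, smul_eq_mul]
    rfl
  have e3 : ∑ i, a i * (w i ⬝ᵥ h) = comb a w ⬝ᵥ h := by
    unfold comb
    rw [sum_dotProduct]
    apply Finset.sum_congr rfl
    intro i _
    rw [smul_dotProduct, smul_eq_mul]
  unfold dd rs
  simp only [dotProduct_add, dotProduct_sub, dotProduct_smul, sub_dotProduct, smul_dotProduct,
    smul_eq_mul, Finset.sum_add_distrib, Finset.sum_sub_distrib, e1, e2, e3]

lemma dd_norm (a : Fin n → ℝ) (ha : a ⬝ᵥ a = 1) (w : Fin n → Fin n → ℝ) :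
    dd (fun i => w i - a i • comb a w) (fun i => w i - a i • comb a w) +
      comb a w ⬝ᵥ comb a w = dd w w := by
  have e1 : ∑ i, a i * (w i ⬝ᵥ comb a w) = comb a w ⬝ᵥ comb a w := by
    conv_rhs => enter [1]; unfold comb
    rw [sum_dotProduct]
    apply Finset.sum_congr rfl
    intro i _
    rw [smul_dotProduct, smul_eq_mul]
  have e2 : ∀ i, (w i - a i • comb a w) ⬝ᵥ (w i - a i • comb a w) =
      w i ⬝ᵥ w i - 2 * (a i * (w i ⬝ᵥ comb a w)) + (a i * a i) * (comb a w ⬝ᵥ comb a w) := by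
    intro i
    simp only [dotProduct_sub, sub_dotProduct, dotProduct_smul, smul_dotProduct, smul_eq_mul,
      dotProduct_comm (comb a w) (w i)]
    ring
  unfold dd
  simp_rw [e2]
  rw [Finset.sum_add_distrib, Finset.sum_sub_distrib, ← Finset.mul_sum, e1, ← Finset.sum_mul]
  have e3 : ∑ i, a i * a i = 1 := ha
  rw [e3]
  ring

/-- **Resampling across rows.** -/
theorem resample_rows (a : Fin n → ℝ) (ha : a ⬝ᵥ a = 1) :
    ((gm n).prod (gv (Fin n))).map (fun p => rs a p.1 p.2) = gm n := by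
  have hmeas := (continuous_rs a).measurable
  have : IsProbabilityMeasure (((gm n).prod (gv (Fin n))).map (fun p => rs a p.1 p.2)) :=
    Measure.isProbabilityMeasure_map hmeas.aemeasurable
  apply ext_dd
  intro w
  have hc := continuous_dd w
  rw [integral_map hmeas.aemeasurable (by
    apply Continuous.aestronglyMeasurable
    fun_prop), integral_exp_dd]
  have e : ∀ p : (Fin n → Fin n → ℝ) × (Fin n → ℝ),
      Complex.exp (((dd w (rs a p.1 p.2) : ℝ) : ℂ) * Complex.I) =
      Complex.exp (((dd (fun i => w i - a i • comb a w) p.1 : ℝ) : ℂ) * Complex.I) *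
        Complex.exp (((comb a w ⬝ᵥ p.2 : ℝ) : ℂ) * Complex.I) := by
    intro p
    rw [← Complex.exp_add, dd_rs]
    congr 1
    push_cast
    ring
  simp_rw [e]
  rw [integral_prod_mul
    (fun G : Fin n → Fin n → ℝ =>
      Complex.exp (((dd (fun i => w i - a i • comb a w) G : ℝ) : ℂ) * Complex.I))
    (fun h : Fin n → ℝ => Complex.exp (((comb a w ⬝ᵥ h : ℝ) : ℂ) * Complex.I)),
    integral_exp_dd, integral_exp_dot, ← Complex.exp_add]
  congr 1
  rw [← dd_norm a ha w]
  push_cast
  ring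

theorem lint_resample_rows (a : Fin n → ℝ) (ha : a ⬝ᵥ a = 1)
    (f : (Fin n → Fin n → ℝ) → ℝ≥0∞) (hf : Measurable f) :
    ∫⁻ G, f G ∂(gm n) = ∫⁻ G, ∫⁻ h, f (rs a G h) ∂(gv (Fin n)) ∂(gm n) := by
  have hmeas := (continuous_rs a).measurable
  conv_lhs => rw [← resample_rows a ha]
  rw [lintegral_map hf hmeas]
  exact lintegral_prod (fun p : (Fin n → Fin n → ℝ) × (Fin n → ℝ) => f (rs a p.1 p.2))
    (hf.comp hmeas).aemeasurable

/-- the law of a linear functional of a shifted Gaussian vector -/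
lemma lint_dot (u μ : Fin n → ℝ) (hu : u ⬝ᵥ u = 1) (g : ℝ → ℝ≥0∞) (hg : Measurable g) :
    ∫⁻ h, g (u ⬝ᵥ (μ + h)) ∂(gv (Fin n)) = ∫⁻ t, g t ∂(gaussianReal (u ⬝ᵥ μ) 1) := by
  have hm : Measurable (fun y : Fin n → ℝ => g (u ⬝ᵥ y)) := by
    apply hg.comp
    unfold dotProduct; fun_prop
  rw [lint_resample_mean u μ hu (fun y => g (u ⬝ᵥ y)) hm]
  have e : ∀ (x : Fin n → ℝ) (t : ℝ),
      u ⬝ᵥ (μ + x - (u ⬝ᵥ (μ + x)) • u + t • u) = t := by
    intro x t
    simp only [dotProduct_add, dotProduct_sub, dotProduct_smul, smul_eq_mul, hu]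
    ring
  simp_rw [e]
  rw [lintegral_const, measure_univ, mul_one]

/-- **The bound for a fixed right-hand side.** -/
theorem fixed_z
    (h1d : ∀ (m c : ℝ), 0 ≤ c → ENNReal.ofReal (Real.exp (-c)) ≤
      ∫⁻ t, ENNReal.ofReal (Real.exp (-(c ^ 2 / (2 * t ^ 2)))) ∂(gaussianReal m 1))
    (M : Matrix (Fin n) (Fin n) ℝ) (δ : ℝ) (hδ : 0 < δ) (z : Fin n → ℝ)
    (hm : Measurable (fun G : Fin n → Fin n → ℝ =>
      ENNReal.ofReal (Real.exp (-(δ * (((M + Matrix.of G)⁻¹ *ᵥ z) ⬝ᵥ
        ((M + Matrix.of G)⁻¹ *ᵥ z))) / 2)))) :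
    ENNReal.ofReal (Real.exp (-Real.sqrt (δ * (z ⬝ᵥ z)))) ≤
      ∫⁻ G, ENNReal.ofReal (Real.exp (-(δ * (((M + Matrix.of G)⁻¹ *ᵥ z) ⬝ᵥ
        ((M + Matrix.of G)⁻¹ *ᵥ z))) / 2)) ∂(gm n) := by
  have hz0 : 0 ≤ z ⬝ᵥ z := Finset.sum_nonneg fun i _ => mul_self_nonneg (z i)
  by_cases hz : z ⬝ᵥ z = 0
  · have hz' : z = 0 := dotProduct_self_eq_zero.1 hz
    subst hz'
    simp
  have hzp : 0 < z ⬝ᵥ z := lt_of_le_of_ne hz0 (Ne.symm hz)
  set r : ℝ := Real.sqrt (z ⬝ᵥ z) with hr
  have hrp : 0 < r := Real.sqrt_pos.2 hzp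
  have hr2 : r ^ 2 = z ⬝ᵥ z := Real.sq_sqrt hz0
  set a : Fin n → ℝ := r⁻¹ • z with ha
  have haa : a ⬝ᵥ a = 1 := by
    rw [ha]
    simp only [dotProduct_smul, smul_dotProduct, smul_eq_mul, ← hr2]
    field_simp
  have hza : z = r • a := by
    rw [ha, smul_smul, mul_inv_cancel₀ hrp.ne', one_smul]
  rw [lint_resample_rows a haa _ hm]
  calc ENNReal.ofReal (Real.exp (-Real.sqrt (δ * (z ⬝ᵥ z))))
      = ∫⁻ _ : Fin n → Fin n → ℝ, ENNReal.ofReal (Real.exp (-Real.sqrt (δ * (z ⬝ᵥ z))))
          ∂(gm n) := by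
        rw [lintegral_const, measure_univ, mul_one]
    _ ≤ _ := by
        apply lintegral_mono
        intro G
        beta_reduce
        -- the matrix B = (1 - a aᵀ)(M + G) is singular
        set B : Matrix (Fin n) (Fin n) ℝ :=
          (1 - Matrix.vecMulVec a a) * (M + Matrix.of G) with hB
        have hBdet : B.det = 0 := by
          rw [hB, Matrix.det_mul]
          have : (1 - Matrix.vecMulVec a a).det = 0 := by
            apply Matrix.exists_mulVec_eq_zero_iff.1
            refine ⟨a, ?_, ?_⟩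
            · intro h0; rw [h0] at haa; simp at haa
            · rw [Matrix.sub_mulVec, Matrix.one_mulVec, Matrix.vecMulVec_mulVec]
              simp [haa]
          rw [this, zero_mul]
        obtain ⟨v, hv, hBv⟩ := Matrix.exists_mulVec_eq_zero_iff.2 hBdet
        have hvp : 0 < v ⬝ᵥ v := by
          rcases (Finset.sum_nonneg fun i _ => mul_self_nonneg (v i) :
            0 ≤ v ⬝ᵥ v).lt_or_eq with h | h
          · exact h
          · exact absurd (dotProduct_self_eq_zero.1 h.symm) hv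
        set u : Fin n → ℝ := (Real.sqrt (v ⬝ᵥ v))⁻¹ • v with hu
        have huu : u ⬝ᵥ u = 1 := by
          rw [hu]
          simp only [dotProduct_smul, smul_dotProduct, smul_eq_mul]
          have := Real.sq_sqrt hvp.le
          have h2 : Real.sqrt (v ⬝ᵥ v) ≠ 0 := (Real.sqrt_pos.2 hvp).ne'
          field_simp
          linarith
        have hBu : B *ᵥ u = 0 := by
          rw [hu, Matrix.mulVec_smul, hBv, smul_zero]
        have key : ∀ h : Fin n → ℝ,
            ENNReal.ofReal (Real.exp (-((r * Real.sqrt δ) ^ 2 /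
              (2 * (u ⬝ᵥ (a ᵥ* M + h)) ^ 2)))) ≤
            ENNReal.ofReal (Real.exp (-(δ * (((M + Matrix.of (rs a G h))⁻¹ *ᵥ z) ⬝ᵥ
              ((M + Matrix.of (rs a G h))⁻¹ *ᵥ z))) / 2)) := by
          intro h
          apply ENNReal.ofReal_le_ofReal
          apply Real.exp_le_exp.2
          set A' : Matrix (Fin n) (Fin n) ℝ := M + Matrix.of (rs a G h) with hA'
          set t : ℝ := u ⬝ᵥ (a ᵥ* M + h) with ht
          have hA'B : A' = B + Matrix.vecMulVec a (a ᵥ* M + h) := by
            have e1 : Matrix.of (rs a G h) =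
                Matrix.of G - Matrix.vecMulVec a a * Matrix.of G + Matrix.vecMulVec a h := by
              ext i j
              simp only [rs, comb, Matrix.of_apply, Matrix.add_apply, Matrix.sub_apply,
                Matrix.vecMulVec_apply, Pi.add_apply, Pi.sub_apply, Pi.smul_apply, smul_eq_mul,
                Finset.sum_apply, Matrix.mul_apply, Finset.mul_sum]
              congr 2
              apply Finset.sum_congr rfl
              intro k _
              ring
            have e2 : Matrix.vecMulVec a a * M = Matrix.vecMulVec a (a ᵥ* M) := by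
              rw [Matrix.vecMulVec_mul]
            rw [hA', e1, hB, Matrix.vecMulVec_add, ← e2]
            noncomm_ring
          have hA'u : A' *ᵥ u = t • a := by
            rw [hA'B, Matrix.add_mulVec, hBu, zero_add, Matrix.vecMulVec_mulVec, ht,
              dotProduct_comm u, op_smul_eq_smul]
          by_cases hdet : A'.det = 0
          · have : A'⁻¹ = 0 := Matrix.nonsing_inv_apply_not_isUnit _ (by
              rw [hdet]; simp)
            rw [this, Matrix.zero_mulVec]
            simp only [dotProduct_zero, mul_zero, neg_zero, zero_div, Left.neg_nonpos_iff]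
            positivity
          · have hun : IsUnit A'.det := isUnit_iff_ne_zero.2 hdet
            have ht0 : t ≠ 0 := by
              intro h0
              rw [h0, zero_smul] at hA'u
              apply hdet
              apply Matrix.exists_mulVec_eq_zero_iff.1
              exact ⟨u, by rintro h0; rw [h0] at huu; simp at huu, hA'u⟩
            have h3 : A'⁻¹ *ᵥ z = (r / t) • u := by
              have h4 : A' *ᵥ ((r / t) • u) = z := by
                rw [Matrix.mulVec_smul, hA'u, smul_smul, div_mul_cancel₀ _ ht0, ← hza]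
              rw [← h4, Matrix.mulVec_mulVec, Matrix.nonsing_inv_mul _ hun, Matrix.one_mulVec]
            rw [h3]
            simp only [dotProduct_smul, smul_dotProduct, smul_eq_mul, huu]
            rw [mul_pow, Real.sq_sqrt hδ.le]
            apply le_of_eq
            field_simp
        calc ENNReal.ofReal (Real.exp (-Real.sqrt (δ * (z ⬝ᵥ z))))
            = ENNReal.ofReal (Real.exp (-(r * Real.sqrt δ))) := by
              rw [Real.sqrt_mul hδ.le, mul_comm]
          _ ≤ ∫⁻ t, ENNReal.ofReal (Real.exp (-((r * Real.sqrt δ) ^ 2 / (2 * t ^ 2))))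
                ∂(gaussianReal (u ⬝ᵥ (a ᵥ* M)) 1) := h1d _ _ (by positivity)
          _ = ∫⁻ h, ENNReal.ofReal (Real.exp (-((r * Real.sqrt δ) ^ 2 /
              (2 * (u ⬝ᵥ (a ᵥ* M + h)) ^ 2)))) ∂(gv (Fin n)) := by
              rw [lint_dot u (a ᵥ* M) huu (fun t => ENNReal.ofReal (Real.exp
                (-((r * Real.sqrt δ) ^ 2 / (2 * t ^ 2))))) (by fun_prop)]
          _ ≤ _ := lintegral_mono key

end Pool.Agent.W813.SV
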